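import Pool.Agent.Helper97.ZRPDefs

/-!
Goals for the existence of a nondecreasing family of zero-range processes started from the
restrictions of a configuration (project ZX, addition to MP_773c46_pr).
-/

open MeasureTheory ProbabilityTheory Set
open scoped ENNReal
open Pool.Agent.Helper97.ZRP

namespace Pool.Agent.Helper81.ZX

/-- The generator attached to a family `R` of jump rates. -/
noncomputable def rateL {T : Type*} [MeasurableSpace T] (R : T → Measure T) (f : T → ℝ) (ζ : T) :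
    ℝ :=
  ∫ y, (f y - f ζ) ∂(R ζ)

/-- The jump distribution. -/
noncomputable def pz {d : ℕ} (p : Site d → ℝ) : Measure (Site d) :=
  Measure.sum (fun z => ENNReal.ofReal (p z) • Measure.dirac z)

/-- Configurations with `N` particles. -/
def T1 (d N : ℕ) : Type := {ζ : Conf d // total ζ = N}

instance (d N : ℕ) : MeasurableSpace (T1 d N) := ⊤
instance (d N : ℕ) : Countable (T1 d N) := inferInstanceAs (Countable {ζ : Conf d // total ζ = N})
instance (d N : ℕ) : MeasurableSingletonClass (T1 d N) := ⟨fun _ => trivial⟩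

/-- Ordered pairs of configurations with `N` and `N'` particles. -/
def T2 (d N N' : ℕ) : Type := {q : Conf d × Conf d // q.1 ≤ q.2 ∧ total q.1 = N ∧ total q.2 = N'}

instance (d N N' : ℕ) : MeasurableSpace (T2 d N N') := ⊤
instance (d N N' : ℕ) : Countable (T2 d N N') :=
  inferInstanceAs (Countable {q : Conf d × Conf d // q.1 ≤ q.2 ∧ total q.1 = N ∧ total q.2 = N'})
instance (d N N' : ℕ) : MeasurableSingletonClass (T2 d N N') := ⟨fun _ => trivial⟩

/-- The first configuration of a pair. -/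
def pr1 {d N N' : ℕ} (q : T2 d N N') : T1 d N := ⟨q.1.1, q.2.2.1⟩

/-- The second configuration of a pair. -/
def pr2 {d N N' : ℕ} (q : T2 d N N') : T1 d N' := ⟨q.1.2, q.2.2.2⟩

open Classical in
/-- A particle jumps from `x` to `x + z` (if this makes sense). -/
noncomputable def jmp {d N : ℕ} (ζ : T1 d N) (x z : Site d) : T1 d N :=
  if h : total (jump ζ.1 x (x + z)) = N then ⟨jump ζ.1 x (x + z), h⟩ else ζ

open Classical in
/-- A particle jumps from `x` to `x + z` in both configurations (if this makes sense). -/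
noncomputable def jmpB {d N N' : ℕ} (q : T2 d N N') (x z : Site d) : T2 d N N' :=
  if h : jump q.1.1 x (x + z) ≤ jump q.1.2 x (x + z) ∧ total (jump q.1.1 x (x + z)) = N ∧
      total (jump q.1.2 x (x + z)) = N' then
    ⟨(jump q.1.1 x (x + z), jump q.1.2 x (x + z)), h⟩ else q

open Classical in
/-- A particle jumps from `x` to `x + z` in the second configuration only (if this makes sense). -/
noncomputable def jmpO {d N N' : ℕ} (q : T2 d N N') (x z : Site d) : T2 d N N' :=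
  if h : q.1.1 ≤ jump q.1.2 x (x + z) ∧ total q.1.1 = N ∧ total (jump q.1.2 x (x + z)) = N' then
    ⟨(q.1.1, jump q.1.2 x (x + z)), h⟩ else q

/-- The jump rates of the zero-range process with `N` particles. -/
noncomputable def R1 {d N : ℕ} (g : ℕ → ℝ) (p : Site d → ℝ) (ζ : T1 d N) : Measure (T1 d N) :=
  ∑ x ∈ ζ.1.support, ENNReal.ofReal (g (ζ.1 x)) • (pz p).map (jmp ζ x)

/-- The jump rates of the basic coupling. -/
noncomputable def R2 {d N N' : ℕ} (g : ℕ → ℝ) (p : Site d → ℝ) (q : T2 d N N') :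
    Measure (T2 d N N') :=
  ∑ x ∈ q.1.2.support, (ENNReal.ofReal (g (q.1.1 x)) • (pz p).map (jmpB q x) +
    ENNReal.ofReal (g (q.1.2 x) - g (q.1.1 x)) • (pz p).map (jmpO q x))

/-- Goal ZX-S: the rates of the single process. -/
def GoalS : Prop := ∀ (d N : ℕ) (g : ℕ → ℝ) (p : Site d → ℝ), IsRate g → IsKernel p →
  (∀ ζ : T1 d N, R1 g p ζ univ ≤ ENNReal.ofReal (N * g N + 1)) ∧
  (∀ f : Conf d → ℝ, (∃ C : ℝ, ∀ ζ, total ζ = N → |f ζ| ≤ C) →
    ∀ ζ : T1 d N, rateL (R1 g p) (fun ξ : T1 d N => f ξ.1) ζ = gen g p f ζ.1)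

/-- Goal ZX-B: the rates of the basic coupling. -/
def GoalB : Prop := ∀ (d N N' : ℕ) (g : ℕ → ℝ) (p : Site d → ℝ), IsRate g → IsKernel p →
  (∀ q : T2 d N N', R2 g p q univ ≤ ENNReal.ofReal (N' * g N' + 1)) ∧
  (∀ f : T1 d N → ℝ, (∃ C : ℝ, ∀ ζ, |f ζ| ≤ C) → ∀ q : T2 d N N',
    rateL (R2 g p) (fun r => f (pr1 r)) q = rateL (R1 g p) f (pr1 q)) ∧
  (∀ f : T1 d N' → ℝ, (∃ C : ℝ, ∀ ζ, |f ζ| ≤ C) → ∀ q : T2 d N N',
    rateL (R2 g p) (fun r => f (pr2 r)) q = rateL (R1 g p) f (pr2 q))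

/-- Goal ZX-G: gluing of monotone pair couplings. -/
def GoalG : Prop := ∀ (S : Type) [Countable S] [Nonempty S] [MeasurableSpace S]
  [MeasurableSingletonClass S] [SemilatticeSup S]
  (μ : ℕ → Kernel ℝ S) (_ : ∀ n, IsMarkovKernel (μ n))
  (ρ : ℕ → Kernel ℝ (S × S)) (_ : ∀ n, IsMarkovKernel (ρ n)),
  (∀ n t, (ρ n t).map Prod.fst = μ n t) → (∀ n t, (ρ n t).map Prod.snd = μ (n + 1) t) →
  (∀ n t, ρ n t {q | ¬ q.1 ≤ q.2} = 0) →
  ∃ (Ω : Type) (_ : MeasurableSpace Ω) (P : Measure Ω) (_ : IsProbabilityMeasure P)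
    (Y : ℕ → ℝ → Ω → S), (∀ n, Measurable (fun q : ℝ × Ω => Y n q.1 q.2)) ∧
    (∀ n t, P.map (Y n t) = μ n t) ∧ ∀ n t ω, Y n t ω ≤ Y (n + 1) t ω

/-- Goal ZX-C: the continuous time Markov chain with bounded rates. -/
def GoalC : Prop :=
  ∃ κ : (T : Type) → [Countable T] → [MeasurableSpace T] → [MeasurableSingletonClass T] →
      (T → Measure T) → ℝ → T → Kernel ℝ T,
    (∀ (T : Type) [Countable T] [MeasurableSpace T] [MeasurableSingletonClass T]
      (R : T → Measure T) (c : ℝ) (ξ : T), 0 < c → (∀ ζ, R ζ univ ≤ ENNReal.ofReal c) →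
      IsMarkovKernel (κ T R c ξ) ∧
      ∀ f : T → ℝ, (∃ C : ℝ, ∀ ζ, |f ζ| ≤ C) → ∀ t : ℝ, 0 ≤ t →
        ∫ y, f y ∂(κ T R c ξ t) = f ξ + ∫ s in (0 : ℝ)..t, (∫ y, rateL R f y ∂(κ T R c ξ s))) ∧
    (∀ (T T' : Type) [Countable T] [MeasurableSpace T] [MeasurableSingletonClass T]
      [Countable T'] [MeasurableSpace T'] [MeasurableSingletonClass T']
      (R : T → Measure T) (R' : T' → Measure T') (c c' : ℝ) (ξ : T') (π : T' → T), 0 < c → 0 < c' →
      (∀ ζ, R ζ univ ≤ ENNReal.ofReal c) → (∀ ζ, R' ζ univ ≤ ENNReal.ofReal c') →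
      (∀ f : T → ℝ, (∃ C : ℝ, ∀ ζ, |f ζ| ≤ C) → ∀ q : T',
        rateL R' (fun r => f (π r)) q = rateL R f (π q)) →
      ∀ t : ℝ, (κ T' R' c' ξ t).map π = κ T R c (π ξ) t)

end Pool.Agent.Helper81.ZX
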