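import Pool.Agent.Helper81.ZX.Goals

/-!
Gluing of monotone pair couplings.
-/

open MeasureTheory ProbabilityTheory Set unitInterval
open scoped ENNReal

namespace Pool.Agent.Helper81.ZX

section glue

variable {S : Type} (φ0 : ℝ → I → S) (φ : ℕ → ℝ × S → I → S)

/-- The glued process. -/
def Zg : ℕ → ℝ → (ℕ → I) → S
  | 0, t, ω => φ0 t (ω 0)
  | n + 1, t, ω => φ n (t, Zg n t ω) (ω (n + 1))

theorem Zg_congr (n : ℕ) (t : ℝ) (ω ω' : ℕ → I) (h : ∀ i ≤ n, ω i = ω' i) :
    Zg φ0 φ n t ω = Zg φ0 φ n t ω' := by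
  induction n with
  | zero => simp only [Zg, h 0 le_rfl]
  | succ n ih =>
    simp only [Zg]
    rw [ih (fun i hi => h i (hi.trans (Nat.le_succ n))), h (n + 1) le_rfl]

variable [MeasurableSpace S]

theorem Zg_meas (h0 : Measurable (Function.uncurry φ0))
    (hφ : ∀ n, Measurable (Function.uncurry (φ n))) (n : ℕ) :
    Measurable (fun q : ℝ × (ℕ → I) => Zg φ0 φ n q.1 q.2) := by
  induction n with
  | zero =>
    have : (fun q : ℝ × (ℕ → I) => Zg φ0 φ 0 q.1 q.2) =
        Function.uncurry φ0 ∘ fun q => (q.1, q.2 0) := rfl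
    rw [this]
    exact h0.comp (by fun_prop)
  | succ n ih =>
    have : (fun q : ℝ × (ℕ → I) => Zg φ0 φ (n + 1) q.1 q.2) =
        Function.uncurry (φ n) ∘ fun q => ((q.1, Zg φ0 φ n q.1 q.2), q.2 (n + 1)) := rfl
    rw [this]
    exact (hφ n).comp ((measurable_fst.prodMk ih).prodMk (by fun_prop))

/-- Extension of a finite sequence. -/
def extI (n : ℕ) (x : Finset.range (n + 1) → I) : ℕ → I :=
  fun i => if h : i ∈ Finset.range (n + 1) then x ⟨i, h⟩ else 0

theorem extI_meas (n : ℕ) : Measurable (extI n) := by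
  refine measurable_pi_iff.2 fun i => ?_
  unfold extI
  by_cases h : i ∈ Finset.range (n + 1)
  · simp only [h, dite_true]
    fun_prop
  · simp only [h, dite_false]
    fun_prop

theorem Zg_indep (h0 : Measurable (Function.uncurry φ0))
    (hφ : ∀ n, Measurable (Function.uncurry (φ n))) (n : ℕ) (t : ℝ) :
    IndepFun (Zg φ0 φ n t) (fun ω : ℕ → I => ω (n + 1))
      (Measure.infinitePi (fun _ : ℕ => (volume : Measure I))) := by
  have h1 : iIndepFun (fun (i : ℕ) (ω : ℕ → I) => ω i)
      (Measure.infinitePi (fun _ : ℕ => (volume : Measure I))) :=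
    iIndepFun_infinitePi (P := fun _ : ℕ => (volume : Measure I)) (X := fun _ ω => ω) (by fun_prop)
  have h2 := h1.indepFun_finset (Finset.range (n + 1)) {n + 1} (by simp) (by fun_prop)
  have hφ' : Measurable (fun x : Finset.range (n + 1) → I => Zg φ0 φ n t (extI n x)) :=
    ((Zg_meas φ0 φ h0 hφ n).comp measurable_prodMk_left).comp (extI_meas n)
  have hψ' : Measurable (fun x : ({n + 1} : Finset ℕ) → I =>
      x ⟨n + 1, Finset.mem_singleton_self _⟩) := measurable_pi_apply _
  have h3 := h2.comp hφ' hψ'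
  have h4 : ((fun x => Zg φ0 φ n t (extI n x)) ∘
      fun (ω : ℕ → I) (i : Finset.range (n + 1)) => ω i) = Zg φ0 φ n t := by
    funext ω
    refine Zg_congr φ0 φ n t _ _ fun i hi => ?_
    have : i ∈ Finset.range (n + 1) := Finset.mem_range.2 (by omega)
    simp [extI, this]
  rw [h4] at h3
  exact h3

end glue

theorem gG' : GoalG := by
  intro S _ _ _ _ _ μ hμ ρ hρ h1 h2 h3
  have hfst : ∀ n, (ρ n).fst = μ n := by
    intro n
    ext t : 1
    rw [Kernel.fst_apply]
    exact h1 n t
  obtain ⟨φ0, hφ0m, hφ0⟩ := (μ 0).exists_measurable_map_eq_unitInterval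
  have hK : ∀ n, ∃ f : ℝ × S → I → S, Measurable (Function.uncurry f) ∧
      ∀ a, volume.map (f a) = (ρ n).condKernel a := fun n =>
    (ρ n).condKernel.exists_measurable_map_eq_unitInterval
  choose φ hφm hφ using hK
  set P : Measure (ℕ → I) := Measure.infinitePi (fun _ : ℕ => (volume : Measure I)) with hP
  set Z := Zg φ0 φ with hZ
  have hZm : ∀ n, Measurable (fun q : ℝ × (ℕ → I) => Z n q.1 q.2) := Zg_meas φ0 φ hφ0m hφm
  have hZt : ∀ n t, Measurable (Z n t) := fun n t => (hZm n).comp measurable_prodMk_left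
  have hev : ∀ n : ℕ, P.map (fun ω : ℕ → I => ω n) = (volume : Measure I) := fun n =>
    (measurePreserving_eval_infinitePi (fun _ : ℕ => (volume : Measure I)) n).map_eq
  have hpair : ∀ n t, P.map (Z n t) = μ n t →
      P.map (fun ω => (Z n t ω, Z (n + 1) t ω)) = ρ n t := by
    intro n t hlaw
    refine Measure.ext_of_singleton ?_
    rintro ⟨s, s'⟩
    have hm : Measurable (fun ω => (Z n t ω, Z (n + 1) t ω)) := (hZt n t).prodMk (hZt (n + 1) t)
    rw [Measure.map_apply hm (measurableSet_singleton _)]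
    have hB : MeasurableSet {u : I | φ n (t, s) u = s'} :=
      ((hφm n).comp measurable_prodMk_left) (measurableSet_singleton s')
    have e1 : (fun ω => (Z n t ω, Z (n + 1) t ω)) ⁻¹' {(s, s')} =
        (Z n t) ⁻¹' {s} ∩ (fun ω : ℕ → I => ω (n + 1)) ⁻¹' {u : I | φ n (t, s) u = s'} := by
      ext ω
      simp only [mem_preimage, mem_singleton_iff, Prod.mk.injEq, mem_inter_iff, mem_setOf_eq]
      constructor
      · rintro ⟨ha, hb⟩
        refine ⟨ha, ?_⟩
        rw [← ha]
        exact hb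
      · rintro ⟨ha, hb⟩
        refine ⟨ha, ?_⟩
        rw [← ha] at hb
        exact hb
    rw [e1, (Zg_indep φ0 φ hφ0m hφm n t).measure_inter_preimage_eq_mul _ _
      (measurableSet_singleton s) hB, ← Measure.map_apply (hZt n t) (measurableSet_singleton s),
      hlaw, ← Measure.map_apply (measurable_pi_apply (n + 1)) hB, hev (n + 1)]
    have e2 : volume {u : I | φ n (t, s) u = s'} = (ρ n).condKernel (t, s) {s'} := by
      have hm' : Measurable (φ n (t, s)) := (hφm n).comp measurable_prodMk_left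
      rw [← hφ n (t, s), Measure.map_apply hm' (measurableSet_singleton s')]
      rfl
    rw [e2]
    have e3 : ρ n t {(s, s')} = ((ρ n).fst ⊗ₖ (ρ n).condKernel) t ({s} ×ˢ {s'}) := by
      rw [Kernel.disintegrate, singleton_prod_singleton]
    rw [e3, Kernel.compProd_apply_prod (measurableSet_singleton s) (measurableSet_singleton s'),
      lintegral_singleton, hfst, mul_comm]
  have hlaw : ∀ n t, P.map (Z n t) = μ n t := by
    intro n t
    induction n with
    | zero =>
      have : Z 0 t = φ0 t ∘ fun ω : ℕ → I => ω 0 := rfl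
      have hm0 : Measurable (φ0 t) := hφ0m.comp measurable_prodMk_left
      have hm1 : Measurable (fun ω : ℕ → I => ω 0) := measurable_pi_apply 0
      rw [this, ← Measure.map_map hm0 hm1, hev 0]
      exact hφ0 t
    | succ n ih =>
      have h4 := hpair n t ih
      rw [← h2 n t, ← h4, Measure.map_map measurable_snd ((hZt n t).prodMk (hZt (n + 1) t))]
      rfl
  have hord : ∀ n t, ∀ᵐ ω ∂P, Z n t ω ≤ Z (n + 1) t ω := by
    intro n t
    have h4 := h3 n t
    rw [← hpair n t (hlaw n t), Measure.map_apply ((hZt n t).prodMk (hZt (n + 1) t))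
      MeasurableSet.of_discrete] at h4
    exact h4
  let Y : ℕ → ℝ → (ℕ → I) → S := fun n t ω =>
    Nat.rec (Z 0 t ω) (fun k y => y ⊔ Z (k + 1) t ω) n
  have hY0 : ∀ t ω, Y 0 t ω = Z 0 t ω := fun _ _ => rfl
  have hY1 : ∀ n t ω, Y (n + 1) t ω = Y n t ω ⊔ Z (n + 1) t ω := fun _ _ _ => rfl
  have hYm : ∀ n, Measurable (fun q : ℝ × (ℕ → I) => Y n q.1 q.2) := by
    intro n
    induction n with
    | zero => exact hZm 0
    | succ n ih =>
      have : (fun q : ℝ × (ℕ → I) => Y (n + 1) q.1 q.2) =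
          (fun r : S × S => r.1 ⊔ r.2) ∘ fun q => (Y n q.1 q.2, Z (n + 1) q.1 q.2) := rfl
      rw [this]
      exact Measurable.of_discrete.comp (ih.prodMk (hZm (n + 1)))
  have hae : ∀ n t, Y n t =ᵐ[P] Z n t := by
    intro n t
    induction n with
    | zero => exact Filter.EventuallyEq.rfl
    | succ n ih =>
      filter_upwards [ih, hord n t] with ω ha hb
      rw [hY1, ha, sup_eq_right.2 hb]
  refine ⟨ℕ → I, inferInstance, P, inferInstance, Y, hYm, fun n t => ?_, fun n t ω => ?_⟩
  · rw [Measure.map_congr (hae n t), hlaw]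
  · rw [hY1]
    exact le_sup_left

end Pool.Agent.Helper81.ZX
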