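import Pool.Agent.Helper81.ZX.Fin
import Pool.Agent.Helper81.ZX.G
import Pool.Agent.Helper62.ZX.S

/-!
A nondecreasing family of zero-range processes started from the restrictions of a configuration.
-/

open MeasureTheory
open Pool.Agent.Helper97.ZRP

namespace Pool.Agent.Helper81.ZX

theorem family {d : ℕ} {g : ℕ → ℝ} {p : Site d → ℝ}
    (hg : IsRate g) (hp : IsKernel p) (η : Site d → ℕ) :
    ∃ (Ω : Type) (_ : MeasurableSpace Ω) (P : Measure Ω) (_ : IsProbabilityMeasure P)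
      (ξ : ℕ → Conf d) (Y : ℕ → ℝ → Ω → Conf d),
      (∀ n, IsRestriction η n (ξ n)) ∧ (∀ n, IsZRP g p (ξ n) P (Y n)) ∧
      ∀ n t ω, Y n t ω ≤ Y (n + 1) t ω :=
  exists_family Pool.Agent.Helper62.ZX.gS gG' hg hp η

end Pool.Agent.Helper81.ZX
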