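import Pool.Agent.Helper81.ZX.Goals

/-!
Continuous time Markov chains with bounded rates on countable sets (uniformisation).
-/

open MeasureTheory ProbabilityTheory Set NormedSpace
open scoped ENNReal Nat

namespace Pool.Agent.Helper81.ZX

section general

variable {E : Type} [NormedAddCommGroup E] [NormedSpace ℝ E] [CompleteSpace E]

theorem smul_pow_aux (a : ℝ) (A : E →L[ℝ] E) (k : ℕ) : (a • A) ^ k = a ^ k • A ^ k :=
  smul_pow a A k

theorem exp_aux (L : E →L[ℝ] E) (c t : ℝ) (hc : c ≠ 0) :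
    exp ((c * t) • (1 + c⁻¹ • L)) = Real.exp (c * t) • exp (t • L) := by
  letI : NormedAlgebra ℚ (E →L[ℝ] E) := NormedAlgebra.restrictScalars ℚ ℝ _
  have h1 : (c * t) • (1 + c⁻¹ • L) = (c * t) • (1 : E →L[ℝ] E) + t • L := by
    rw [smul_add, smul_smul]
    congr 2
    field_simp
  rw [h1, exp_add_of_commute (by
    apply Commute.smul_left
    exact Commute.one_left _)]
  have h2 : exp ((c * t) • (1 : E →L[ℝ] E)) = Real.exp (c * t) • 1 := by
    have := algebraMap_exp_comm (𝔸 := E →L[ℝ] E) (c * t)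
    rw [Algebra.algebraMap_eq_smul_one, Algebra.algebraMap_eq_smul_one] at this
    rw [← this, Real.exp_eq_exp_ℝ]
  rw [h2, smul_mul_assoc, one_mul]

theorem pow_succ_aux (A : E →L[ℝ] E) (k : ℕ) (f : E) : (A ^ (k + 1)) f = (A ^ k) (A f) := by
  rw [pow_succ]
  rfl

theorem exp_zero_aux (L : E →L[ℝ] E) (f : E) : (exp ((0 : ℝ) • L)) f = f := by
  rw [zero_smul, exp_zero]
  rfl

end general

section chain

variable {T : Type} [Countable T] [MeasurableSpace T] [MeasurableSingletonClass T]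

theorem integ (μ : Measure T) [IsFiniteMeasure μ] (f : T → ℝ) (C : ℝ) (h : ∀ x, |f x| ≤ C) :
    Integrable f μ :=
  Integrable.of_bound (Measurable.of_discrete.aestronglyMeasurable) C (ae_of_all _ h)

/-- Bounded functions. -/
abbrev Bd (T : Type) : Type := lp (fun _ : T => ℝ) ∞

/-- A bounded function as an element of the Banach space. -/
noncomputable def mkB (f : T → ℝ) (C : ℝ) (h : ∀ ζ, |f ζ| ≤ C) : Bd T :=
  ⟨f, memℓp_infty ⟨C, by rintro _ ⟨ζ, rfl⟩; exact h ζ⟩⟩

omit [Countable T] [MeasurableSpace T] [MeasurableSingletonClass T] in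
theorem mkB_apply (f : T → ℝ) (C : ℝ) (h : ∀ ζ, |f ζ| ≤ C) (ζ : T) : mkB f C h ζ = f ζ := rfl

omit [Countable T] [MeasurableSpace T] [MeasurableSingletonClass T] in
theorem le_norm (f : Bd T) (ζ : T) : |f ζ| ≤ ‖f‖ := lp.norm_apply_le_norm (by simp) f ζ

/-- The rates are bounded by `c`. -/
def Ok (R : T → Measure T) (c : ℝ) : Prop := 0 < c ∧ ∀ ζ, R ζ univ ≤ ENNReal.ofReal c

theorem Ok.fin {R : T → Measure T} {c : ℝ} (h : Ok R c) (ζ : T) : IsFiniteMeasure (R ζ) :=
  ⟨(h.2 ζ).trans_lt ENNReal.ofReal_lt_top⟩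

theorem Ok.real {R : T → Measure T} {c : ℝ} (h : Ok R c) (ζ : T) : (R ζ).real univ ≤ c := by
  have := ENNReal.toReal_mono ENNReal.ofReal_ne_top (h.2 ζ)
  rwa [ENNReal.toReal_ofReal h.1.le] at this

theorem rateL_bound {R : T → Measure T} {c : ℝ} (h : Ok R c) (f : T → ℝ) (C : ℝ)
    (hf : ∀ x, |f x| ≤ C) (ζ : T) : |rateL R f ζ| ≤ 2 * c * C := by
  have := h.fin ζ
  have hC : 0 ≤ C := (abs_nonneg _).trans (hf ζ)
  have h1 := norm_integral_le_of_norm_le_const (μ := R ζ) (f := fun y => f y - f ζ) (C := 2 * C)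
    (ae_of_all _ (fun y => by
      rw [Real.norm_eq_abs]
      calc |f y - f ζ| ≤ |f y| + |f ζ| := abs_sub _ _
        _ ≤ 2 * C := by linarith [hf y, hf ζ]))
  rw [Real.norm_eq_abs] at h1
  calc |rateL R f ζ| ≤ 2 * C * (R ζ).real univ := h1
    _ ≤ 2 * C * c := by gcongr; exact h.real ζ
    _ = 2 * c * C := by ring

/-- The generator as a bounded operator. -/
noncomputable def Lop (R : T → Measure T) (c : ℝ) (h : Ok R c) : Bd T →L[ℝ] Bd T :=
  LinearMap.mkContinuous
    { toFun := fun f => mkB (rateL R f) (2 * c * ‖f‖) (rateL_bound h f ‖f‖ (le_norm f))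
      map_add' := by
        intro f f'
        ext ζ
        have := h.fin ζ
        change rateL R (f + f' : Bd T) ζ = rateL R f ζ + rateL R f' ζ
        unfold rateL
        rw [← integral_add]
        · refine integral_congr_ae (ae_of_all _ fun y => ?_)
          change (f y + f' y) - (f ζ + f' ζ) = _
          ring
        · exact (integ _ f ‖f‖ (le_norm f)).sub (integrable_const _)
        · exact (integ _ f' ‖f'‖ (le_norm f')).sub (integrable_const _)
      map_smul' := by
        intro a f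
        ext ζ
        change rateL R (a • f : Bd T) ζ = a * rateL R f ζ
        unfold rateL
        rw [← integral_const_mul]
        refine integral_congr_ae (ae_of_all _ fun y => ?_)
        change (a * f y) - (a * f ζ) = _
        ring }
    (2 * c) (by
      intro f
      refine lp.norm_le_of_forall_le ?_ fun ζ => ?_
      · have := h.1; positivity
      · exact rateL_bound h f ‖f‖ (le_norm f) ζ)

theorem Lop_apply {R : T → Measure T} {c : ℝ} (h : Ok R c) (f : Bd T) (ζ : T) :
    Lop R c h f ζ = rateL R f ζ := rfl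

/-- The uniformised kernel. -/
noncomputable def Kf (R : T → Measure T) (c : ℝ) (ζ : T) : Measure T :=
  ENNReal.ofReal c⁻¹ • R ζ + ENNReal.ofReal (1 - (R ζ).real univ * c⁻¹) • Measure.dirac ζ

/-- The uniformised kernel. -/
noncomputable def Kk (R : T → Measure T) (c : ℝ) : Kernel T T := ⟨Kf R c, Measurable.of_discrete⟩

theorem Kk_markov {R : T → Measure T} {c : ℝ} (h : Ok R c) : IsMarkovKernel (Kk R c) := by
  refine ⟨fun ζ => ⟨?_⟩⟩
  have := h.fin ζ
  have hc := h.1
  have h1 : (R ζ).real univ * c⁻¹ ≤ 1 := by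
    rw [← div_eq_mul_inv, div_le_one hc]; exact h.real ζ
  change (Kf R c ζ) univ = 1
  simp only [Kf, Measure.add_apply, Measure.smul_apply, smul_eq_mul, measure_univ, mul_one]
  have h2 : R ζ univ = ENNReal.ofReal ((R ζ).real univ) := by
    rw [Measure.real, ENNReal.ofReal_toReal (measure_ne_top _ _)]
  rw [h2, ← ENNReal.ofReal_mul (by positivity), ← ENNReal.ofReal_add (by positivity) (by linarith)]
  rw [show c⁻¹ * (R ζ).real univ + (1 - (R ζ).real univ * c⁻¹) = 1 by ring]
  simp

theorem Kk_integral {R : T → Measure T} {c : ℝ} (h : Ok R c) (f : Bd T) (ζ : T) :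
    ∫ y, f y ∂(Kk R c ζ) = f ζ + c⁻¹ * rateL R f ζ := by
  have := h.fin ζ
  have hc := h.1
  have h1 : (R ζ).real univ * c⁻¹ ≤ 1 := by
    rw [← div_eq_mul_inv, div_le_one hc]; exact h.real ζ
  have hi : Integrable f (R ζ) := integ _ f ‖f‖ (le_norm f)
  have hd : Integrable f (Measure.dirac ζ) := integ _ f ‖f‖ (le_norm f)
  change ∫ y, f y ∂(Kf R c ζ) = _
  rw [Kf, integral_add_measure (hi.smul_measure ENNReal.ofReal_ne_top)
    (hd.smul_measure ENNReal.ofReal_ne_top), integral_smul_measure, integral_smul_measure,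
    integral_dirac, ENNReal.toReal_ofReal (by positivity), ENNReal.toReal_ofReal (by linarith)]
  unfold rateL
  rw [integral_sub hi (integrable_const _), integral_const]
  simp only [smul_eq_mul]
  ring

/-- The chain after `k` steps. -/
noncomputable def Xk (R : T → Measure T) (c : ℝ) : ℕ → Kernel T T
  | 0 => Kernel.id
  | k + 1 => Kk R c ∘ₖ Xk R c k

theorem Xk_markov {R : T → Measure T} {c : ℝ} (h : Ok R c) (k : ℕ) : IsMarkovKernel (Xk R c k) := by
  induction k with
  | zero => exact (inferInstance : IsMarkovKernel Kernel.id)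
  | succ k ih =>
    have := Kk_markov h
    have := ih
    change IsMarkovKernel (Kk R c ∘ₖ Xk R c k)
    infer_instance

/-- The uniformised operator. -/
noncomputable def Aop (R : T → Measure T) (c : ℝ) (h : Ok R c) : Bd T →L[ℝ] Bd T :=
  1 + c⁻¹ • Lop R c h

theorem Aop_apply {R : T → Measure T} {c : ℝ} (h : Ok R c) (f : Bd T) (ζ : T) :
    Aop R c h f ζ = f ζ + c⁻¹ * rateL R f ζ := rfl

theorem Xk_integral {R : T → Measure T} {c : ℝ} (h : Ok R c) (k : ℕ) (f : Bd T) (ξ : T) :
    ∫ y, f y ∂(Xk R c k ξ) = ((Aop R c h) ^ k) f ξ := by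
  induction k generalizing f with
  | zero => simp [Xk, Kernel.id_apply]
  | succ k ih =>
    have := Kk_markov h
    have := Xk_markov h k
    change ∫ y, f y ∂((Kk R c ∘ₖ Xk R c k) ξ) = _
    rw [Kernel.integral_comp (integ _ f ‖f‖ (le_norm f)), pow_succ_aux, ← ih]
    refine integral_congr_ae (ae_of_all _ fun ζ => ?_)
    change ∫ y, f y ∂(Kk R c ζ) = _
    rw [Kk_integral h, Aop_apply]

/-- The Poisson weights. -/
noncomputable def wt (c : ℝ) (k : ℕ) (t : ℝ) : ℝ :=
  Real.exp (-(c * max t 0)) * ((c * max t 0) ^ k / k !)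

theorem wt_nonneg {c : ℝ} (hc : 0 < c) (k : ℕ) (t : ℝ) : 0 ≤ wt c k t := by
  unfold wt
  have : 0 ≤ max t 0 := le_max_right _ _
  positivity

theorem wt_hasSum (c : ℝ) (t : ℝ) : HasSum (fun k => wt c k t) 1 := by
  have h1 := expSeries_div_hasSum_exp (c * max t 0)
  have h2 := h1.mul_left (Real.exp (-(c * max t 0)))
  rw [← Real.exp_eq_exp_ℝ, ← Real.exp_add, neg_add_cancel, Real.exp_zero] at h2
  exact h2

theorem wt_meas (c : ℝ) (k : ℕ) : Measurable (wt c k) := by
  unfold wt
  fun_prop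

/-- The law at time `t`. -/
noncomputable def kf (R : T → Measure T) (c : ℝ) (ξ : T) (t : ℝ) : Measure T :=
  Measure.sum (fun k => ENNReal.ofReal (wt c k t) • Xk R c k ξ)

/-- The law at time `t`, as a kernel. -/
noncomputable def kap (R : T → Measure T) (c : ℝ) (ξ : T) : Kernel ℝ T :=
  ⟨kf R c ξ, by
    refine Measure.measurable_of_measurable_coe _ fun s hs => ?_
    simp only [kf, Measure.sum_apply _ hs, Measure.smul_apply, smul_eq_mul]
    exact Measurable.ennreal_tsum fun k => ((wt_meas c k).ennreal_ofReal).mul_const _⟩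

theorem kap_markov {R : T → Measure T} {c : ℝ} (h : Ok R c) (ξ : T) :
    IsMarkovKernel (kap R c ξ) := by
  refine ⟨fun t => ⟨?_⟩⟩
  change kf R c ξ t univ = 1
  have := fun k => Xk_markov h k
  simp only [kf, Measure.sum_apply _ MeasurableSet.univ, Measure.smul_apply, smul_eq_mul,
    measure_univ, mul_one]
  rw [← ENNReal.ofReal_tsum_of_nonneg (fun k => wt_nonneg h.1 k t) (wt_hasSum c t).summable,
    (wt_hasSum c t).tsum_eq, ENNReal.ofReal_one]

/-- Evaluation of an operator. -/
noncomputable def ev (f : Bd T) (ξ : T) : (Bd T →L[ℝ] Bd T) →L[ℝ] ℝ :=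
  LinearMap.mkContinuous
    { toFun := fun A => A f ξ
      map_add' := fun A A' => rfl
      map_smul' := fun a A => rfl } ‖f‖ (by
      intro A
      calc ‖A f ξ‖ ≤ ‖A f‖ := lp.norm_apply_le_norm (by simp) _ _
        _ ≤ ‖A‖ * ‖f‖ := A.le_opNorm f
        _ = ‖f‖ * ‖A‖ := mul_comm _ _)

omit [Countable T] [MeasurableSpace T] [MeasurableSingletonClass T] in
theorem ev_apply (f : Bd T) (ξ : T) (A : Bd T →L[ℝ] Bd T) : ev f ξ A = A f ξ := rfl

theorem exp_A {R : T → Measure T} {c : ℝ} (h : Ok R c) (t : ℝ) :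
    exp ((c * t) • Aop R c h) = Real.exp (c * t) • exp (t • Lop R c h) :=
  exp_aux (Lop R c h) c t h.1.ne'

theorem kap_integral {R : T → Measure T} {c : ℝ} (h : Ok R c) (f : Bd T) (ξ : T) (t : ℝ) :
    ∫ y, f y ∂(kap R c ξ t) = (exp ((max t 0) • Lop R c h)) f ξ := by
  have := kap_markov h ξ
  have hi : Integrable f (kap R c ξ t) := integ _ f ‖f‖ (le_norm f)
  change ∫ y, f y ∂(kf R c ξ t) = _
  change Integrable f (kf R c ξ t) at hi
  have h1 := hasSum_integral_measure hi
  have h2 : ∀ k, ∫ y, f y ∂(ENNReal.ofReal (wt c k t) • Xk R c k ξ) =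
      Real.exp (-(c * max t 0)) *
        (((k ! : ℝ)⁻¹) * ev f ξ (((c * max t 0) • Aop R c h) ^ k)) := by
    intro k
    rw [integral_smul_measure, Xk_integral h, ENNReal.toReal_ofReal (wt_nonneg h.1 k t),
      smul_pow_aux, map_smul, ev_apply, wt]
    simp only [smul_eq_mul]
    ring
  simp only [h2] at h1
  have h3 := (exp_series_hasSum_exp' (𝕂 := ℝ) ((c * max t 0) • Aop R c h)).mapL (ev f ξ)
  simp only [map_smul, smul_eq_mul] at h3
  have h4 := h3.mul_left (Real.exp (-(c * max t 0)))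
  refine (h1.unique h4).trans ?_
  rw [exp_A h, map_smul, ev_apply, smul_eq_mul, ← mul_assoc, ← Real.exp_add,
    neg_add_cancel, Real.exp_zero, one_mul]

theorem kap_forward {R : T → Measure T} {c : ℝ} (h : Ok R c) (f : Bd T) (ξ : T) (t : ℝ)
    (ht : 0 ≤ t) : ∫ y, f y ∂(kap R c ξ t) =
      f ξ + ∫ s in (0 : ℝ)..t, (∫ y, rateL R f y ∂(kap R c ξ s)) := by
  have hd : ∀ s : ℝ, HasDerivAt (fun u : ℝ => ev f ξ (exp (u • Lop R c h)))
      (ev (Lop R c h f) ξ (exp (s • Lop R c h))) s := by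
    intro s
    have h1 := (ev f ξ).hasFDerivAt.comp_hasDerivAt s (hasDerivAt_exp_smul_const (Lop R c h) s)
    exact h1
  have hcont : Continuous (fun s : ℝ => ev (Lop R c h f) ξ (exp (s • Lop R c h))) := by
    refine (ev (Lop R c h f) ξ).continuous.comp ?_
    exact continuous_iff_continuousAt.2 fun s =>
      (hasDerivAt_exp_smul_const (Lop R c h) s).continuousAt
  have h2 := intervalIntegral.integral_eq_sub_of_hasDerivAt (a := 0) (b := t) (fun s _ => hd s)
    (hcont.intervalIntegrable _ _)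
  have h3 : ∫ s in (0 : ℝ)..t, (∫ y, rateL R f y ∂(kap R c ξ s)) =
      ∫ s in (0 : ℝ)..t, ev (Lop R c h f) ξ (exp (s • Lop R c h)) := by
    refine intervalIntegral.integral_congr fun s hs => ?_
    rw [uIcc_of_le ht] at hs
    have := kap_integral h (Lop R c h f) ξ s
    rw [max_eq_left hs.1] at this
    exact this
  have h4 : ev f ξ (exp ((0 : ℝ) • Lop R c h)) = f ξ := by
    rw [ev_apply, exp_zero_aux]
  have h5 := kap_integral h f ξ t
  rw [max_eq_left ht] at h5
  rw [h3, h2, h4]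
  refine h5.trans ?_
  change ev f ξ (exp (t • Lop R c h)) = _
  ring

end chain

section inter

variable {T : Type} [Countable T] [MeasurableSpace T] [MeasurableSingletonClass T]
  {T' : Type} [Countable T'] [MeasurableSpace T'] [MeasurableSingletonClass T']

/-- The pull-back of a bounded function. -/
noncomputable def pb (π : T' → T) (f : Bd T) : Bd T' :=
  mkB (fun r => f (π r)) ‖f‖ (fun r => le_norm f (π r))

theorem pow_inter {R : T → Measure T} {R' : T' → Measure T'} {c c' : ℝ} (h : Ok R c)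
    (h' : Ok R' c') (π : T' → T)
    (hL : ∀ f : Bd T, ∀ q : T', rateL R' (fun r => f (π r)) q = rateL R f (π q)) (k : ℕ)
    (f : Bd T) : ((Lop R' c' h') ^ k) (pb π f) = pb π (((Lop R c h) ^ k) f) := by
  induction k generalizing f with
  | zero => simp
  | succ k ih =>
    rw [pow_succ_aux, pow_succ_aux, ← ih]
    congr 1
    ext q
    exact hL f q

theorem exp_inter {R : T → Measure T} {R' : T' → Measure T'} {c c' : ℝ} (h : Ok R c)
    (h' : Ok R' c') (π : T' → T)
    (hL : ∀ f : Bd T, ∀ q : T', rateL R' (fun r => f (π r)) q = rateL R f (π q)) (t : ℝ)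
    (f : Bd T) (ξ : T') : (exp (t • Lop R' c' h')) (pb π f) ξ = (exp (t • Lop R c h)) f (π ξ) := by
  have h1 := (exp_series_hasSum_exp' (𝕂 := ℝ) (t • Lop R' c' h')).mapL (ev (pb π f) ξ)
  have h2 := (exp_series_hasSum_exp' (𝕂 := ℝ) (t • Lop R c h)).mapL (ev f (π ξ))
  have h3 : ∀ k : ℕ, ev (pb π f) ξ (((k ! : ℝ)⁻¹) • (t • Lop R' c' h') ^ k) =
      ev f (π ξ) (((k ! : ℝ)⁻¹) • (t • Lop R c h) ^ k) := by
    intro k
    rw [smul_pow_aux, smul_pow_aux, map_smul, map_smul, map_smul, map_smul, ev_apply, ev_apply,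
      pow_inter h h' π hL]
    rfl
  simp only [h3] at h1
  exact h1.unique h2

theorem kap_map {R : T → Measure T} {R' : T' → Measure T'} {c c' : ℝ} (h : Ok R c)
    (h' : Ok R' c') (π : T' → T)
    (hL : ∀ f : Bd T, ∀ q : T', rateL R' (fun r => f (π r)) q = rateL R f (π q)) (ξ : T') (t : ℝ) :
    (kap R' c' ξ t).map π = kap R c (π ξ) t := by
  have := kap_markov h (π ξ)
  have := kap_markov h' ξ
  have hπ : Measurable π := Measurable.of_discrete
  have : IsProbabilityMeasure ((kap R' c' ξ t).map π) :=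
    Measure.isProbabilityMeasure_map hπ.aemeasurable
  classical
  refine Measure.ext_of_singleton ?_
  intro y
  let f : Bd T := mkB (Set.indicator {y} (fun _ => (1 : ℝ))) 1 (by
    intro ζ
    by_cases hζ : ζ ∈ ({y} : Set T)
    · rw [Set.indicator_of_mem hζ]; simp
    · rw [Set.indicator_of_notMem hζ]; simp)
  have h1 : ∫ z, f z ∂((kap R' c' ξ t).map π) = ∫ z, f z ∂(kap R c (π ξ) t) := by
    rw [integral_map hπ.aemeasurable (Measurable.of_discrete.aestronglyMeasurable),
      kap_integral h f]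
    have h2 := kap_integral h' (pb π f) ξ t
    rw [exp_inter h h' π hL] at h2
    exact h2
  have h2 : ∀ (μ : Measure T), ∫ z, f z ∂μ = μ.real {y} := by
    intro μ
    change ∫ z, Set.indicator {y} (fun _ => (1 : ℝ)) z ∂μ = _
    rw [integral_indicator (measurableSet_singleton y)]
    simp [Measure.real]
  rw [h2, h2] at h1
  have h3 := congrArg ENNReal.ofReal h1
  rwa [Measure.real, Measure.real, ENNReal.ofReal_toReal (measure_ne_top _ _),
    ENNReal.ofReal_toReal (measure_ne_top _ _)] at h3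

end inter

theorem gC : GoalC := by
  refine ⟨fun T _ _ _ R c ξ => kap R c ξ, ?_, ?_⟩
  · intro T _ _ _ R c ξ hc hR
    refine ⟨kap_markov ⟨hc, hR⟩ ξ, ?_⟩
    rintro f ⟨C, hf⟩ t ht
    exact kap_forward ⟨hc, hR⟩ (mkB f C hf) ξ t ht
  · intro T T' _ _ _ _ _ _ R R' c c' ξ π hc hc' hR hR' hL t
    exact kap_map ⟨hc, hR⟩ ⟨hc', hR'⟩ π (fun f q => hL f ⟨‖f‖, le_norm f⟩ q) ξ t

end Pool.Agent.Helper81.ZX
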