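import Pool.Agent.Helper81.ZX.C
import Pool.Agent.Helper12.ZX.B

/-!
A nondecreasing family of zero-range processes started from the restrictions of a configuration.
-/

open MeasureTheory ProbabilityTheory Set
open scoped ENNReal
open Pool.Agent.Helper97.ZRP

namespace Pool.Agent.Helper81.ZX

/-- The restriction of `η` to the box `[-n, n]^d`. -/
noncomputable def restr {d : ℕ} (η : Site d → ℕ) (n : ℕ) : Conf d :=
  Finsupp.onFinset (box d n) (fun x => if x ∈ box d n then η x else 0) (by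
    intro x hx
    by_contra h
    exact hx (if_neg h))

theorem restr_apply {d : ℕ} (η : Site d → ℕ) (n : ℕ) (x : Site d) :
    restr η n x = if x ∈ box d n then η x else 0 := rfl

theorem box_mono (d n : ℕ) : box d n ⊆ box d (n + 1) := by
  intro x hx
  unfold box at hx ⊢
  rw [Fintype.mem_piFinset] at hx ⊢
  intro i
  have := hx i
  rw [Finset.mem_Icc] at this ⊢
  push_cast
  constructor <;> omega

theorem restr_mono {d : ℕ} (η : Site d → ℕ) (n : ℕ) : restr η n ≤ restr η (n + 1) := by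
  intro x
  rw [restr_apply, restr_apply]
  by_cases h : x ∈ box d n
  · rw [if_pos h, if_pos (box_mono d n h)]
  · rw [if_neg h]
    exact Nat.zero_le _

theorem rate_nonneg {g : ℕ → ℝ} (hg : IsRate g) (n : ℕ) : 0 ≤ g n := by
  have := hg.2.1 (Nat.zero_le n)
  rwa [hg.1] at this

theorem exists_family (gS : GoalS) (gG : GoalG) {d : ℕ} {g : ℕ → ℝ} {p : Site d → ℝ}
    (hg : IsRate g) (hp : IsKernel p) (η : Site d → ℕ) :
    ∃ (Ω : Type) (_ : MeasurableSpace Ω) (P : Measure Ω) (_ : IsProbabilityMeasure P)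
      (ξ : ℕ → Conf d) (Y : ℕ → ℝ → Ω → Conf d),
      (∀ n, IsRestriction η n (ξ n)) ∧ (∀ n, IsZRP g p (ξ n) P (Y n)) ∧
      ∀ n t ω, Y n t ω ≤ Y (n + 1) t ω := by
  letI mC : MeasurableSpace (Conf d) := ⊤
  have dC : DiscreteMeasurableSpace (Conf d) := ⟨fun _ => trivial⟩
  have sC : MeasurableSingletonClass (Conf d) := ⟨fun _ => trivial⟩
  obtain ⟨κ, hκ1, hκ2⟩ := gC
  set ξ : ℕ → Conf d := restr η with hξ
  have hmono : ∀ n, ξ n ≤ ξ (n + 1) := restr_mono η
  set c : ℕ → ℝ := fun n => (total (ξ n) : ℕ) * g (total (ξ n)) + 1 with hc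
  have hcpos : ∀ n, 0 < c n := by
    intro n
    have := mul_nonneg (Nat.cast_nonneg (α := ℝ) (total (ξ n))) (rate_nonneg hg (total (ξ n)))
    simp only [hc]
    linarith
  have hS := fun n => gS d (total (ξ n)) g p hg hp
  have hB := fun n => Pool.Agent.Helper12.ZX.gB d (total (ξ n)) (total (ξ (n + 1))) g p hg hp
  let k1 : (n : ℕ) → Kernel ℝ (T1 d (total (ξ n))) := fun n =>
    κ (T1 d (total (ξ n))) (R1 g p) (c n) ⟨ξ n, rfl⟩
  let k2 : (n : ℕ) → Kernel ℝ (T2 d (total (ξ n)) (total (ξ (n + 1)))) := fun n =>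
    κ (T2 d (total (ξ n)) (total (ξ (n + 1)))) (R2 g p) (c (n + 1))
      ⟨(ξ n, ξ (n + 1)), hmono n, rfl, rfl⟩
  have hk1 := fun n => hκ1 (T1 d (total (ξ n))) (R1 g p) (c n) ⟨ξ n, rfl⟩ (hcpos n) (hS n).1
  have hk2 := fun n => hκ1 (T2 d (total (ξ n)) (total (ξ (n + 1)))) (R2 g p) (c (n + 1))
    ⟨(ξ n, ξ (n + 1)), hmono n, rfl, rfl⟩ (hcpos (n + 1)) (hB n).1
  have m1 : ∀ n, IsMarkovKernel (k1 n) := fun n => (hk1 n).1
  have m2 : ∀ n, IsMarkovKernel (k2 n) := fun n => (hk2 n).1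
  let v1 : (n : ℕ) → T1 d (total (ξ n)) → Conf d := fun n y => y.1
  let v2 : (n : ℕ) → T2 d (total (ξ n)) (total (ξ (n + 1))) → Conf d × Conf d := fun n y => y.1
  have hv1 : ∀ n, Measurable (v1 n) := fun n => Measurable.of_discrete
  have hv2 : ∀ n, Measurable (v2 n) := fun n => Measurable.of_discrete
  let μ : ℕ → Kernel ℝ (Conf d) := fun n => (k1 n).map (v1 n)
  let ρ : ℕ → Kernel ℝ (Conf d × Conf d) := fun n => (k2 n).map (v2 n)
  have hμ : ∀ n, IsMarkovKernel (μ n) := fun n => Kernel.IsMarkovKernel.map _ (hv1 n)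
  have hρ : ∀ n, IsMarkovKernel (ρ n) := fun n => Kernel.IsMarkovKernel.map _ (hv2 n)
  have hpr1 : ∀ n t, (k2 n t).map pr1 = k1 n t := by
    intro n t
    exact hκ2 (T1 d (total (ξ n))) (T2 d (total (ξ n)) (total (ξ (n + 1)))) (R1 g p) (R2 g p)
      (c n) (c (n + 1)) ⟨(ξ n, ξ (n + 1)), hmono n, rfl, rfl⟩ pr1 (hcpos n) (hcpos (n + 1))
      (hS n).1 (hB n).1 (hB n).2.1 t
  have hpr2 : ∀ n t, (k2 n t).map pr2 = k1 (n + 1) t := by
    intro n t
    exact hκ2 (T1 d (total (ξ (n + 1)))) (T2 d (total (ξ n)) (total (ξ (n + 1)))) (R1 g p)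
      (R2 g p) (c (n + 1)) (c (n + 1)) ⟨(ξ n, ξ (n + 1)), hmono n, rfl, rfl⟩ pr2 (hcpos (n + 1))
      (hcpos (n + 1)) (hS (n + 1)).1 (hB n).1 (hB n).2.2 t
  obtain ⟨Ω, mΩ, P, hP, Y, hY1, hY2, hY3⟩ := gG (Conf d) μ hμ ρ hρ (by
      intro n t
      change ((k2 n).map (v2 n) t).map Prod.fst = (k1 n).map (v1 n) t
      rw [Kernel.map_apply _ (hv2 n), Kernel.map_apply _ (hv1 n), ← hpr1,
        Measure.map_map Measurable.of_discrete (hv2 n),
        Measure.map_map (hv1 n) Measurable.of_discrete]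
      rfl) (by
      intro n t
      change ((k2 n).map (v2 n) t).map Prod.snd = (k1 (n + 1)).map (v1 (n + 1)) t
      rw [Kernel.map_apply _ (hv2 n), Kernel.map_apply _ (hv1 (n + 1)), ← hpr2,
        Measure.map_map Measurable.of_discrete (hv2 n),
        Measure.map_map (hv1 (n + 1)) Measurable.of_discrete]
      rfl) (by
      intro n t
      change ((k2 n).map (v2 n) t) {q | ¬ q.1 ≤ q.2} = 0
      rw [Kernel.map_apply _ (hv2 n), Measure.map_apply (hv2 n) (MeasurableSet.of_discrete)]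
      have : (v2 n) ⁻¹' {q | ¬ q.1 ≤ q.2} = ∅ := by
        ext y
        simp only [mem_preimage, mem_setOf_eq, mem_empty_iff_false, iff_false, not_not]
        exact y.2.1
      rw [this, measure_empty])
  refine ⟨Ω, mΩ, P, hP, ξ, Y, fun n x => ?_, fun n => ⟨?_, ?_⟩, hY3⟩
  · rfl
  · intro ζ
    exact hY1 n (measurableSet_singleton ζ)
  · rintro f ⟨C, hC⟩ t ht
    have hYm : ∀ s, Measurable (Y n s) := fun s => (hY1 n).comp measurable_prodMk_left
    have key : ∀ (h : Conf d → ℝ) (s : ℝ), ∫ ω, h (Y n s ω) ∂P = ∫ y, h y.1 ∂(k1 n s) := by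
      intro h s
      have h1 : ∫ ω, h (Y n s ω) ∂P = ∫ ζ, h ζ ∂(P.map (Y n s)) :=
        (integral_map (hYm s).aemeasurable
          (Measurable.of_discrete (f := h)).aestronglyMeasurable).symm
      rw [h1, hY2]
      change ∫ ζ, h ζ ∂((k1 n).map (v1 n) s) = _
      rw [Kernel.map_apply _ (hv1 n), integral_map (hv1 n).aemeasurable
        (Measurable.of_discrete (f := h)).aestronglyMeasurable]
    rw [key f t, (hk1 n).2 (fun y => f y.1) ⟨C, fun y => hC y.1 y.2⟩ t ht]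
    congr 1
    refine intervalIntegral.integral_congr fun s _ => ?_
    rw [key]
    refine integral_congr_ae (ae_of_all _ fun y => ?_)
    exact (hS n).2 f ⟨C, hC⟩ y

end Pool.Agent.Helper81.ZX
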